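import Pool.Agent.W8.LS.Stm

/-!
# Project LS: which points of the charts are exceptional
-/

set_option autoImplicit false

namespace Pool.Agent.W977.LS.SingAB

open Pool.Agent.W8.LS

/-- norms of the two coordinates -/
theorem norms (hsq : ∀ u, ‖Pool.Agent.W8.LS.sq u‖ ^ 2 = 2 * ‖u‖) (u v : ℂ) (h : ‖u‖ * (1 + ‖v‖ ^ 2) < 1 / 200) :
    ‖Pool.Agent.W8.LS.sq u‖ < 1 / 4 ∧ ‖v * Pool.Agent.W8.LS.sq u‖ < 1 / 4 := by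
  have hu : 0 ≤ ‖u‖ := norm_nonneg u
  have hv : 0 ≤ ‖v‖ ^ 2 := sq_nonneg _
  have h0 : 0 ≤ ‖u‖ * ‖v‖ ^ 2 := mul_nonneg hu hv
  have h1 : ‖Pool.Agent.W8.LS.sq u‖ ^ 2 < (1 / 4) ^ 2 := by
    rw [hsq]
    nlinarith
  have h2 : ‖v * Pool.Agent.W8.LS.sq u‖ ^ 2 < (1 / 4) ^ 2 := by
    rw [norm_mul, mul_pow, hsq]
    nlinarith
  exact ⟨lt_of_pow_lt_pow_left₀ 2 (by norm_num) h1, lt_of_pow_lt_pow_left₀ 2 (by norm_num) h2⟩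

theorem SingAB_proof : Pool.Agent.W8.LS.SingAB := by
  intro hF s c k l m r Q
  obtain ⟨-, -, -, -, -, -, -, -, -, hNS, -, ⟨-, hs0, hsz, hsn, -, -⟩, -, -, -⟩ := hF
  constructor
  · intro hQ
    have h3 : ‖Q.2.2.1‖ * (1 + ‖Q.2.2.2‖ ^ 2) < 1 / 200 := hQ.2.2
    obtain ⟨h1, h2⟩ := norms hsn Q.2.2.1 Q.2.2.2 h3
    constructor
    · intro h
      exact hsz _ (hNS k l m r Q.1 Q.2.1 _ _ h1 h2 h).1
    · intro h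
      refine ⟨k, l, m, r, Q.1, Q.2.1, ?_⟩
      rw [h, hs0, mul_zero]
  · intro hQ
    have h3 : ‖Q.2.2.2‖ * (1 + ‖Q.2.2.1‖ ^ 2) < 1 / 200 := hQ.2.2
    obtain ⟨h1, h2⟩ := norms hsn Q.2.2.2 Q.2.2.1 h3
    constructor
    · intro h
      exact hsz _ (hNS k l m r Q.1 Q.2.1 _ _ h2 h1 h).2
    · intro h
      refine ⟨k, l, m, r, Q.1, Q.2.1, ?_⟩
      rw [h, hs0, mul_zero]

end Pool.Agent.W977.LS.SingAB
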