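import Pool.Agent.W8.LS.Stm

/-!
# Project LS: two surfaces meeting modulo the group
-/

set_option autoImplicit false

namespace Pool.Agent.W977.LS.SiteRel

open Pool.Agent.W8.LS

/-- the coordinates of a point of a fixed surface -/
theorem site_inj {k l m r k' l' m' r' : ℤ} {s c s' c' : ℝ}
    (h : site k l m r (s, c, 0, 0) = site k' l' m' r' (s', c', 0, 0)) :
    k = k' ∧ l = l' ∧ m = m' ∧ r = r' ∧ s = s' ∧ c = c' := by
  unfold site at h
  rw [Prod.mk.injEq, Prod.mk.injEq, Prod.mk.injEq] at h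
  obtain ⟨h1, h2, h3, h4⟩ := h
  simp only [Complex.zero_im, mul_zero, add_zero] at h1
  simp only at h2
  have h3r := congrArg Complex.re h3
  have h3i := congrArg Complex.im h3
  have h4r := congrArg Complex.re h4
  have h4i := congrArg Complex.im h4
  simp at h3r h3i h4r h4i
  subst h1 h2
  have hk : k = k' := by exact_mod_cast h3r
  have hl : l = l' := by exact_mod_cast h3i
  have hm : m = m' := by exact_mod_cast h4r
  subst hk hl hm
  refine ⟨rfl, rfl, rfl, ?_, rfl, rfl⟩
  have h5 : (r : ℝ) = r' := by linarith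
  exact_mod_cast h5

theorem SiteRel_proof : Pool.Agent.W8.LS.SiteRel := by
  intro hA k l m r k' l' m' r' s c s' c' h
  obtain ⟨e, k1, l1, a, n, m1, r1, he, h⟩ := h
  rw [hA e k1 l1 a n m1 r1 k l m r s c 0 0 he, mul_zero] at h
  obtain ⟨hk, hl, hm, hr, hs, hc⟩ := site_inj h
  refine ⟨e, k1 * l + a, n, he, by rw [hs]; ring, hc, ?_⟩
  intro s₁ c₁ z w
  refine ⟨e, k1, l1, a, n, m1, r1, he, ?_⟩
  rw [hA e k1 l1 a n m1 r1 k l m r s₁ c₁ z w he, ← hr, ← hk, ← hl, ← hm, add_assoc]

end Pool.Agent.W977.LS.SiteRel
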